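import Pool.Agent.X143.VT.Tmpl

/-!
# Adjacencies along the sides of the square
-/

set_option autoImplicit false

namespace Pool.Agent.X143.VT

open UpperHalfPlane Pool.Agent.Y979.HV

variable {s X0 : ℝ}

theorem cu_pt (hs : 0 < s) {a y : ℝ} (hy : 0 < y) : cu s X0 (pt (X0 + a * s) y) = a := by
  unfold cu
  rw [pt_re hy]
  field_simp
  ring

theorem cv_pt (hs : 0 < s) {x b : ℝ} (hy : 0 < 1 + b * s) : cv s (pt x (1 + b * s)) = b := by
  unfold cv
  rw [pt_im hy]
  field_simp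
  ring

theorem int_eq_of_abs {i j : ℤ} (h : |(i : ℝ) - j| < 1) : i = j := by
  have h1 : |i - j| < 1 := by exact_mod_cast h
  have := Int.abs_lt_one_iff.mp h1
  omega

/-- horizontal adjacency -/
theorem Tmpl.adj_h {n : ℕ} {A : Set ℍ} (T : Tmpl n s X0 A) (hs : 0 < s) (hn : 5 ≤ n)
    (hns : (n : ℝ) * s = 1 / 1000) {J i : ℤ} (hJ : J = 0 ∨ J = n) (hi0 : 0 ≤ i) (hi1 : i < n)
    {p q : A} (hp : (p : ℍ) ∈ bx s X0 (ps n false i) (ps n false J))
    (hq : (q : ℍ) ∈ bx s X0 (ps n false (i + 1)) (ps n false J)) : (voronoiGraph A).Adj p q := by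
  have hnR : (5 : ℝ) ≤ n := by exact_mod_cast hn
  have hJ0 : (0 : ℝ) ≤ J := by
    have : (0 : ℤ) ≤ J := by omega
    exact_mod_cast this
  have hJn : (J : ℝ) ≤ n := by
    have : J ≤ (n : ℤ) := by omega
    exact_mod_cast this
  have hi0' : (0 : ℝ) ≤ i := by exact_mod_cast hi0
  have hi1' : (i : ℝ) + 1 ≤ n := by
    have : i + 1 ≤ (n : ℤ) := by omega
    exact_mod_cast this
  obtain ⟨p1, p2⟩ := mem_bx hs hp
  obtain ⟨q1, q2⟩ := mem_bx hs hq
  simp only [ps_false] at p1 p2 q1 q2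
  push_cast at q1
  have hpim := im_bounds hs hns (z := (p : ℍ)) (by
    rw [abs_le] at *; constructor <;> linarith [p2.1, p2.2])
  have hqim := im_bounds hs hns (z := (q : ℍ)) (by
    rw [abs_le] at *; constructor <;> linarith [q2.1, q2.2])
  have hs1 : s ≤ 1 / 5000 := by nlinarith
  have hJs : (J : ℝ) * s ≤ 1 / 1000 := by rw [← hns]; gcongr
  have hJs0 : 0 ≤ (J : ℝ) * s := by positivity
  have hpq : p ≠ q := by
    intro h
    rw [h] at p1
    rw [abs_le] at *
    linarith [p1.1, p1.2, q1.1, q1.2]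
  set Mid : Set ℍ := {z | |cu s X0 z - (i + 1 / 2)| ≤ 0.03 ∧ |cv s z - (J + 0.005)| ≤ 0.005}
    with hMid
  refine adj_of_sign hpq Mid ?_ (fun t => pt (X0 + (i + 0.47 + 0.06 * t) * s) (1 + J * s))
    (fun t => pt (X0 + (i + 0.47 + 0.06 * t) * s) (1 + (J + 0.01) * s))
    (continuous_pt (by fun_prop) (by fun_prop) (fun t => by positivity))
    (continuous_pt (by fun_prop) (by fun_prop) (fun t => by positivity)) ?_ ?_ ?_ ?_ ?_ ?_ ?_
  · -- separation
    rintro z ⟨z1, z2⟩ y hy hyp hyq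
    have hzim := im_bounds hs hns (z := z) (by
      rw [abs_le] at *; constructor <;> linarith [z2.1, z2.2])
    have dp : dist z (p : ℍ) ≤ 0.5404 * s / 0.996 := by
      apply dist_le_uv (X0 := X0) hs (by norm_num) hzim.1 hpim.1
      have e1 : |cu s X0 z - cu s X0 p| ≤ 0.54 := by
        rw [abs_le] at *; constructor <;> linarith [z1.1, z1.2, p1.1, p1.2]
      have e2 : |cv s z - cv s (p : ℍ)| ≤ 0.02 := by
        rw [abs_le] at *; constructor <;> linarith [z2.1, z2.2, p2.1, p2.2]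
      rw [← sq_abs (cu s X0 z - cu s X0 p), ← sq_abs (cv s z - cv s (p : ℍ))]
      have b1 := abs_nonneg (cu s X0 z - cu s X0 p)
      have b2 := abs_nonneg (cv s z - cv s (p : ℍ))
      nlinarith
    have dq : dist z (q : ℍ) ≤ 0.5404 * s / 0.996 := by
      apply dist_le_uv (X0 := X0) hs (by norm_num) hzim.1 hqim.1
      have e1 : |cu s X0 z - cu s X0 q| ≤ 0.54 := by
        rw [abs_le] at *; constructor <;> linarith [z1.1, z1.2, q1.1, q1.2]
      have e2 : |cv s z - cv s (q : ℍ)| ≤ 0.02 := by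
        rw [abs_le] at *; constructor <;> linarith [z2.1, z2.2, q2.1, q2.2]
      rw [← sq_abs (cu s X0 z - cu s X0 q), ← sq_abs (cv s z - cv s (q : ℍ))]
      have b1 := abs_nonneg (cu s X0 z - cu s X0 q)
      have b2 := abs_nonneg (cv s z - cv s (q : ℍ))
      nlinarith
    have hb : 0.5404 * s / 0.996 ≤ 0.5427 * s := by
      rw [div_le_iff₀ (by norm_num)]; nlinarith
    have hfar : 0.5427 * s ≤ dist z y := by
      by_contra hcon
      push Not at hcon
      obtain ⟨σ, i', j', hi', hj', hyb, u1, u2⟩ := T.near_index (X0 := X0) hs hn hns hy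
        (by rw [abs_le] at *; constructor <;> linarith [z1.1, z1.2])
        (by rw [abs_le] at *; constructor <;> linarith [z2.1, z2.2]) hcon.le
      cases σ
      · simp only [ps_false] at u1 u2
        have ej : j' = J := by
          apply int_eq_of_abs
          rw [abs_lt]; rw [abs_le] at *
          constructor <;> linarith [u2.1, u2.2, z2.1, z2.2]
        subst ej
        rcases int_cases i' i with h | h | h
        · rw [abs_le] at *
          linarith [u1.1, u1.2, z1.1, z1.2]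
        · subst h
          exact hyp (T.uniq false i' j' hi' hj' y hy p p.2 hyb hp)
        · rcases int_cases i' (i + 1) with h' | h' | h'
          · push_cast at h'; linarith
          · subst h'
            exact hyq (T.uniq false (i + 1) j' hi' hj' y hy q q.2 hyb hq)
          · push_cast at h'
            rw [abs_le] at *
            linarith [u1.1, u1.2, z1.1, z1.2]
      · have h3 := ps_row (n := (n : ℤ)) (by omega) hJ j'
        have h4 : |ps n true j' - J| ≤ 0.571 := by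
          rw [abs_le] at *
          constructor <;> linarith [u2.1, u2.2, z2.1, z2.2]
        norm_num at h4 h3
        linarith
    exact ⟨(dp.trans hb).trans hfar, (dq.trans hb).trans hfar⟩
  · rintro t ⟨t0, t1⟩
    refine ⟨?_, ?_⟩
    · rw [cu_pt hs (by positivity), abs_le]
      constructor <;> linarith
    · rw [cv_pt hs (by positivity), abs_le]
      constructor <;> linarith
  · rintro t ⟨t0, t1⟩
    refine ⟨?_, ?_⟩
    · rw [cu_pt hs (by positivity), abs_le]
      constructor <;> linarith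
    · rw [cv_pt hs (by positivity), abs_le]
      constructor <;> linarith
  · apply le_of_lt
    apply dist_lt_uv (X0 := X0) hs hpim.1 hqim.2
    rw [cu_pt hs (by positivity), cv_pt hs (by positivity)]
    rw [abs_le] at *
    have e1 : ((i : ℝ) + 0.47 + 0.06 * 0 - cu s X0 (p : ℍ)) ^ 2 ≤ 0.48 ^ 2 := by
      apply sq_le_sq' <;> linarith [p1.1, p1.2]
    have e2 : ((J : ℝ) - cv s (p : ℍ)) ^ 2 ≤ 0.02 ^ 2 := by
      apply sq_le_sq' <;> linarith [p2.1, p2.2]
    have e3 : 0.52 ^ 2 ≤ ((i : ℝ) + 0.47 + 0.06 * 0 - cu s X0 (q : ℍ)) ^ 2 := by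
      nlinarith [q1.1, q1.2]
    have e4 := sq_nonneg ((J : ℝ) - cv s (q : ℍ))
    nlinarith
  · apply le_of_lt
    apply dist_lt_uv (X0 := X0) hs hqim.1 hpim.2
    rw [cu_pt hs (by positivity), cv_pt hs (by positivity)]
    rw [abs_le] at *
    have e1 : ((i : ℝ) + 0.47 + 0.06 * 1 - cu s X0 (q : ℍ)) ^ 2 ≤ 0.48 ^ 2 := by
      apply sq_le_sq' <;> linarith [q1.1, q1.2]
    have e2 : ((J : ℝ) - cv s (q : ℍ)) ^ 2 ≤ 0.02 ^ 2 := by
      apply sq_le_sq' <;> linarith [q2.1, q2.2]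
    have e3 : 0.52 ^ 2 ≤ ((i : ℝ) + 0.47 + 0.06 * 1 - cu s X0 (p : ℍ)) ^ 2 := by
      nlinarith [p1.1, p1.2]
    have e4 := sq_nonneg ((J : ℝ) - cv s (p : ℍ))
    nlinarith
  · apply le_of_lt
    apply dist_lt_uv (X0 := X0) hs hpim.1 hqim.2
    rw [cu_pt hs (by positivity), cv_pt hs (by positivity)]
    rw [abs_le] at *
    have e1 : ((i : ℝ) + 0.47 + 0.06 * 0 - cu s X0 (p : ℍ)) ^ 2 ≤ 0.48 ^ 2 := by
      apply sq_le_sq' <;> linarith [p1.1, p1.2]
    have e2 : ((J : ℝ) + 0.01 - cv s (p : ℍ)) ^ 2 ≤ 0.02 ^ 2 := by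
      apply sq_le_sq' <;> linarith [p2.1, p2.2]
    have e3 : 0.52 ^ 2 ≤ ((i : ℝ) + 0.47 + 0.06 * 0 - cu s X0 (q : ℍ)) ^ 2 := by
      nlinarith [q1.1, q1.2]
    have e4 := sq_nonneg ((J : ℝ) + 0.01 - cv s (q : ℍ))
    nlinarith
  · apply le_of_lt
    apply dist_lt_uv (X0 := X0) hs hqim.1 hpim.2
    rw [cu_pt hs (by positivity), cv_pt hs (by positivity)]
    rw [abs_le] at *
    have e1 : ((i : ℝ) + 0.47 + 0.06 * 1 - cu s X0 (q : ℍ)) ^ 2 ≤ 0.48 ^ 2 := by
      apply sq_le_sq' <;> linarith [q1.1, q1.2]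
    have e2 : ((J : ℝ) + 0.01 - cv s (q : ℍ)) ^ 2 ≤ 0.02 ^ 2 := by
      apply sq_le_sq' <;> linarith [q2.1, q2.2]
    have e3 : 0.52 ^ 2 ≤ ((i : ℝ) + 0.47 + 0.06 * 1 - cu s X0 (p : ℍ)) ^ 2 := by
      nlinarith [p1.1, p1.2]
    have e4 := sq_nonneg ((J : ℝ) + 0.01 - cv s (p : ℍ))
    nlinarith
  · intro t t' h
    have h1 := congrArg (cv s) h
    rw [cv_pt hs (by positivity), cv_pt hs (by positivity)] at h1
    linarith

end Pool.Agent.X143.VT
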