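import Pool.Agent.X143.VT.AdjV

/-!
# The local configuration violates the four point inequality
-/

set_option autoImplicit false

namespace Pool.Agent.X143.VT

open UpperHalfPlane Pool.Agent.Y979.HV

variable {s X0 : ℝ}

theorem Tmpl.far {n : ℕ} {A : Set ℍ} (T : Tmpl n s X0 A) (hs : 0 < s) (hn : 5 ≤ n)
    (hns : (n : ℝ) * s = 1 / 1000) (hconn : (voronoiGraph A).Connected) {p q : A}
    (p1 : -0.01 ≤ cu s X0 (p : ℍ)) (p1' : cu s X0 (p : ℍ) ≤ n + 0.01)
    (p2 : -0.01 ≤ cv s (p : ℍ)) (p2' : cv s (p : ℍ) ≤ n + 0.01)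
    (h1 : (n : ℝ) - 0.02 ≤ |cu s X0 (q : ℍ) - cu s X0 (p : ℍ)|)
    (h2 : (n : ℝ) - 0.02 ≤ |cv s (q : ℍ) - cv s (p : ℍ)|) :
    1.1 * (n : ℝ) ≤ (voronoiGraph A).dist p q := by
  have hnR : (5 : ℝ) ≤ n := by exact_mod_cast hn
  have hpim := im_bounds hs hns (z := (p : ℍ)) (by rw [abs_le]; constructor <;> linarith)
  have hs1 : s ≤ 1 / 5000 := by nlinarith
  have hK : 1.4 * (((n : ℝ) - 0.02) * s) ≤ dist (q : ℍ) (p : ℍ) :=
    le_dist_uv (X0 := X0) hs (by linarith) (by nlinarith) hpim.2 h1 h2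
  have hcov : ∀ b : ℍ, dist b (p : ℍ) ≤ 1.4 * (((n : ℝ) - 0.02) * s) + 2 * (0.58 * s) →
      ∃ q ∈ A, dist b q < 0.58 * s := by
    intro b hb
    have e : 1.4 * (((n : ℝ) - 0.02) * s) + 2 * (0.58 * s) = (1.4 * (n : ℝ) + 1.132) * s := by
      ring
    rw [e] at hb
    obtain ⟨c1, c2⟩ := coord_le_uv (X0 := X0) hs (r := 1.4 * (n : ℝ) + 1.132) (by nlinarith)
      hpim.2 hb
    apply T.dense hs hn hns
    · rw [abs_le] at *
      constructor <;> linarith [c1.1, c1.2]
    · rw [abs_le] at *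
      constructor <;> linarith [c2.1, c2.2]
  have h3 := lower_bound (by positivity) hconn hcov hK (by
    have : (0 : ℝ) ≤ (n : ℝ) - 0.02 := by linarith
    positivity)
  have h4 : 1.4 * ((n : ℝ) - 0.02) ≤ 1.16 * ((voronoiGraph A).dist p q : ℝ) :=
    le_of_mul_le_mul_right (by linarith) hs
  linarith

theorem chain_le {V : Type*} {G : SimpleGraph V} (hG : G.Connected) (f : ℕ → V) (n : ℕ)
    (h : ∀ i < n, G.Adj (f i) (f (i + 1))) : G.dist (f 0) (f n) ≤ n := by
  induction n with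
  | zero => simp
  | succ n ih =>
    have h1 := ih fun i hi => h i (by omega)
    have h2 := hG.dist_triangle (u := f 0) (v := f n) (w := f (n + 1))
    have h3 : G.dist (f n) (f (n + 1)) = 1 := SimpleGraph.dist_eq_one_iff_adj.mpr (h n (by omega))
    omega

theorem Tmpl.four {n : ℕ} {A : Set ℍ} (T : Tmpl n s X0 A) (hs : 0 < s) (hn : 5 ≤ n)
    (hns : (n : ℝ) * s = 1 / 1000) (hconn : (voronoiGraph A).Connected) :
    ∃ a b c d : A, (voronoiGraph A).dist a b ≤ n ∧ (voronoiGraph A).dist b c ≤ n ∧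
      (voronoiGraph A).dist c d ≤ n ∧ (voronoiGraph A).dist a d ≤ n ∧
      1.1 * (n : ℝ) ≤ (voronoiGraph A).dist a c ∧ 1.1 * (n : ℝ) ≤ (voronoiGraph A).dist b d := by
  have hnR : (5 : ℝ) ≤ n := by exact_mod_cast hn
  have hne : Nonempty A := hconn.nonempty
  have hex : ∀ i j : ℤ, ∃ z : A, |i| ≤ 4 * (n : ℤ) - 1 → |j| ≤ 4 * (n : ℤ) - 1 →
      (z : ℍ) ∈ bx s X0 (ps n false i) (ps n false j) := by
    intro i j
    by_cases h : |i| ≤ 4 * (n : ℤ) - 1 ∧ |j| ≤ 4 * (n : ℤ) - 1
    · obtain ⟨z, hz, hb⟩ := T.ex false i j h.1 h.2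
      exact ⟨⟨z, hz⟩, fun _ _ => hb⟩
    · exact ⟨hne.some, fun h1 h2 => absurd ⟨h1, h2⟩ h⟩
  choose P hP using hex
  have hP' : ∀ i j : ℤ, 0 ≤ i → i ≤ n → 0 ≤ j → j ≤ n →
      (P i j : ℍ) ∈ bx s X0 (ps n false i) (ps n false j) := by
    intro i j h1 h2 h3 h4
    refine hP i j ?_ ?_ <;> rw [abs_le] <;> constructor <;> omega
  have crd : ∀ i j : ℤ, 0 ≤ i → i ≤ n → 0 ≤ j → j ≤ n →
      |cu s X0 (P i j : ℍ) - i| ≤ 1 / 100 ∧ |cv s (P i j : ℍ) - j| ≤ 1 / 100 := by
    intro i j h1 h2 h3 h4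
    have := mem_bx hs (hP' i j h1 h2 h3 h4)
    simpa only [ps_false] using this
  have c00 := crd 0 0 le_rfl (by omega) le_rfl (by omega)
  have cn0 := crd n 0 (by omega) le_rfl le_rfl (by omega)
  have cnn := crd n n (by omega) le_rfl (by omega) le_rfl
  have c0n := crd 0 n le_rfl (by omega) (by omega) le_rfl
  push_cast at c00 cn0 cnn c0n
  refine ⟨P 0 0, P n 0, P n n, P 0 n, ?_, ?_, ?_, ?_, ?_, ?_⟩
  · have h := chain_le hconn (fun i : ℕ => P i 0) n (fun i hi => by
      have := T.adj_h hs hn hns (J := 0) (i := (i : ℤ)) (Or.inl rfl) (by omega) (by omega)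
        (hP' i 0 (by omega) (by omega) (by omega) (by omega))
        (hP' (i + 1) 0 (by omega) (by omega) (by omega) (by omega))
      simpa using this)
    simpa using h
  · have h := chain_le hconn (fun j : ℕ => P n j) n (fun j hj => by
      have := T.adj_v hs hn hns (I := n) (j := (j : ℤ)) (Or.inr rfl) (by omega) (by omega)
        (hP' n j (by omega) (by omega) (by omega) (by omega))
        (hP' n (j + 1) (by omega) (by omega) (by omega) (by omega))
      simpa using this)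
    simpa using h
  · have h := chain_le hconn (fun i : ℕ => P i n) n (fun i hi => by
      have := T.adj_h hs hn hns (J := n) (i := (i : ℤ)) (Or.inr rfl) (by omega) (by omega)
        (hP' i n (by omega) (by omega) (by omega) (by omega))
        (hP' (i + 1) n (by omega) (by omega) (by omega) (by omega))
      simpa using this)
    rw [SimpleGraph.dist_comm]
    simpa using h
  · have h := chain_le hconn (fun j : ℕ => P 0 j) n (fun j hj => by
      have := T.adj_v hs hn hns (I := 0) (j := (j : ℤ)) (Or.inl rfl) (by omega) (by omega)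
        (hP' 0 j (by omega) (by omega) (by omega) (by omega))
        (hP' 0 (j + 1) (by omega) (by omega) (by omega) (by omega))
      simpa using this)
    simpa using h
  · obtain ⟨a1, a2⟩ := c00
    obtain ⟨b1, b2⟩ := cnn
    rw [abs_le] at a1 a2 b1 b2
    refine T.far hs hn hns hconn (by linarith [a1.1]) (by linarith [a1.2]) (by linarith [a2.1])
      (by linarith [a2.2]) ?_ ?_
    · rw [le_abs]; left; linarith [a1.2, b1.1]
    · rw [le_abs]; left; linarith [a2.2, b2.1]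
  · obtain ⟨a1, a2⟩ := cn0
    obtain ⟨b1, b2⟩ := c0n
    rw [abs_le] at a1 a2 b1 b2
    refine T.far hs hn hns hconn (by linarith [a1.1]) (by linarith [a1.2]) (by linarith [a2.1])
      (by linarith [a2.2]) ?_ ?_
    · rw [le_abs]; right; linarith [a1.1, b1.2]
    · rw [le_abs]; left; linarith [a2.2, b2.1]

/-- a set which contains arbitrarily large local configurations has no vertex at which the
geodesic triangles are thin -/
theorem not_thin {A : Set ℍ} (hconn : (voronoiGraph A).Connected)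
    (h : ∀ N : ℕ, ∃ (n : ℕ) (s X0 : ℝ), N ≤ n ∧ 0 < s ∧ 5 ≤ n ∧ (n : ℝ) * s = 1 / 1000 ∧
      Tmpl n s X0 A) (x : A) (δ : ℝ) : ¬ ThinAt (voronoiGraph A) x δ := by
  intro hthin
  obtain ⟨N, hN⟩ := exists_nat_gt (20 * (3 * δ + 1))
  obtain ⟨n, s, X0, hNn, hs, hn, hns, T⟩ := h N
  obtain ⟨a, b, c, d, h1, h2, h3, h4, h5, h6⟩ := T.four hs hn hns hconn
  have h7 := four_point hconn hthin a b c d
  have h1' : ((voronoiGraph A).dist a b : ℝ) ≤ n := by exact_mod_cast h1
  have h2' : ((voronoiGraph A).dist b c : ℝ) ≤ n := by exact_mod_cast h2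
  have h3' : ((voronoiGraph A).dist c d : ℝ) ≤ n := by exact_mod_cast h3
  have h4' : ((voronoiGraph A).dist a d : ℝ) ≤ n := by exact_mod_cast h4
  have hNn' : (N : ℝ) ≤ n := by exact_mod_cast hNn
  have h8 : max (((voronoiGraph A).dist a b : ℝ) + (voronoiGraph A).dist c d)
      (((voronoiGraph A).dist a d : ℝ) + (voronoiGraph A).dist b c) ≤ 2 * n :=
    max_le (by linarith) (by linarith)
  linarith

end Pool.Agent.X143.VT
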