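import Mathlib

/-!
# Geodesic triangles that are thin at one vertex, and the four point inequality
-/

set_option autoImplicit false

namespace Pool.Agent.X143.VT

variable {V : Type*} {G : SimpleGraph V}

/-- The geodesic triangle with sides `p`, `q`, `r` is `δ`-thin: each vertex of each side is at
graph distance at most `δ` from some vertex of the union of the other two sides. -/
def IsThin (G : SimpleGraph V) (δ : ℝ) {x y z : V} (p : G.Walk x y) (q : G.Walk y z)
    (r : G.Walk z x) : Prop :=
  (∀ u ∈ p.support, ∃ v, (v ∈ q.support ∨ v ∈ r.support) ∧ (G.dist u v : ℝ) ≤ δ) ∧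
  (∀ u ∈ q.support, ∃ v, (v ∈ r.support ∨ v ∈ p.support) ∧ (G.dist u v : ℝ) ≤ δ) ∧
  (∀ u ∈ r.support, ∃ v, (v ∈ p.support ∨ v ∈ q.support) ∧ (G.dist u v : ℝ) ≤ δ)

/-- Every geodesic triangle having `x` as one of its vertices is `δ`-thin, for all choices of the
other two vertices and of the three geodesic sides. -/
def ThinAt (G : SimpleGraph V) (x : V) (δ : ℝ) : Prop :=
  ∀ (y z : V) (p : G.Walk x y) (q : G.Walk y z) (r : G.Walk z x),
    p.length = G.dist x y → q.length = G.dist y z → r.length = G.dist z x → IsThin G δ p q r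

theorem dist_add_of_mem {x y v : V} {p : G.Walk x y} (hp : p.length = G.dist x y)
    (hv : v ∈ p.support) : G.dist x v + G.dist v y ≤ G.dist x y := by
  classical
  have h1 := SimpleGraph.dist_le (p.takeUntil v hv)
  have h2 := SimpleGraph.dist_le (p.dropUntil v hv)
  have h3 := congrArg SimpleGraph.Walk.length (p.take_spec hv)
  rw [SimpleGraph.Walk.length_append] at h3
  omega

theorem dist_getVert {x y : V} {p : G.Walk x y} (hG : G.Connected) (hp : p.length = G.dist x y)
    {t : ℕ} (ht : t ≤ p.length) : G.dist x (p.getVert t) = t := by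
  have h1 := SimpleGraph.dist_le (p.take t)
  have h2 := SimpleGraph.dist_le (p.drop t)
  rw [SimpleGraph.Walk.take_length] at h1
  rw [SimpleGraph.Walk.drop_length] at h2
  have h3 := hG.dist_triangle (u := x) (v := p.getVert t) (w := y)
  have h4 : min p.length t = t ∨ min t p.length = t := by omega
  omega

theorem delta_nonneg {x : V} {δ : ℝ} (h : ThinAt G x δ) : 0 ≤ δ := by
  have h1 := (h x x SimpleGraph.Walk.nil SimpleGraph.Walk.nil SimpleGraph.Walk.nil
    (by simp) (by simp) (by simp)).1 x (by simp)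
  obtain ⟨v, _, hv⟩ := h1
  exact le_trans (Nat.cast_nonneg _) hv

/-- the Gromov product inequality at the base vertex -/
theorem gromov {x : V} {δ : ℝ} (hG : G.Connected) (h : ThinAt G x δ) (y w z : V) :
    min (((G.dist x y : ℝ) + G.dist x w - G.dist y w) / 2)
      (((G.dist x w : ℝ) + G.dist x z - G.dist w z) / 2) - (3 * δ + 1) ≤
      ((G.dist x y : ℝ) + G.dist x z - G.dist y z) / 2 := by
  have hδ := delta_nonneg h
  set m := min (((G.dist x y : ℝ) + G.dist x w - G.dist y w) / 2)
      (((G.dist x w : ℝ) + G.dist x z - G.dist w z) / 2) with hm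
  have hm1 : m ≤ ((G.dist x y : ℝ) + G.dist x w - G.dist y w) / 2 := min_le_left _ _
  have hm2 : m ≤ ((G.dist x w : ℝ) + G.dist x z - G.dist w z) / 2 := min_le_right _ _
  have T : ∀ a b c : V, (G.dist a c : ℝ) ≤ G.dist a b + G.dist b c := fun a b c => by
    exact_mod_cast hG.dist_triangle (u := a) (v := b) (w := c)
  have C : ∀ a b : V, (G.dist a b : ℝ) = G.dist b a := fun a b => by rw [SimpleGraph.dist_comm]
  have hyz : (0 : ℝ) ≤ (G.dist x y : ℝ) + G.dist x z - G.dist y z := by
    have := T y x z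
    rw [C y x] at this
    linarith
  by_cases hc : m - δ ≤ 0
  · linarith
  push Not at hc
  obtain ⟨t, ht1, ht2⟩ : ∃ t : ℕ, (t : ℝ) < m - δ ∧ m - δ ≤ t + 1 := by
    refine ⟨⌈m - δ⌉₊ - 1, ?_, ?_⟩
    · have h1 : 0 < ⌈m - δ⌉₊ := Nat.ceil_pos.mpr hc
      have h2 := Nat.ceil_lt_add_one hc.le
      rw [Nat.cast_sub h1]
      push_cast
      linarith
    · have h1 : 0 < ⌈m - δ⌉₊ := Nat.ceil_pos.mpr hc
      have h2 := Nat.le_ceil (m - δ)
      rw [Nat.cast_sub h1]
      push_cast
      linarith
  obtain ⟨α, hα⟩ := hG.exists_walk_length_eq_dist x y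
  obtain ⟨β, hβ⟩ := hG.exists_walk_length_eq_dist x w
  obtain ⟨γ, hγ⟩ := hG.exists_walk_length_eq_dist x z
  obtain ⟨e1, he1⟩ := hG.exists_walk_length_eq_dist y w
  obtain ⟨e2, he2⟩ := hG.exists_walk_length_eq_dist w z
  have htw : t ≤ β.length := by
    have h1 : (G.dist x y : ℝ) ≤ G.dist x w + G.dist y w := by
      have := T x w y
      rwa [C w y] at this
    have h2 : (t : ℝ) ≤ G.dist x w := by linarith
    rw [hβ]
    exact_mod_cast h2
  set u := β.getVert t with hu
  have hut : (G.dist x u : ℝ) = t := by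
    exact_mod_cast dist_getVert hG hβ htw
  have hus : u ∈ β.support := β.getVert_mem_support t
  -- the first triangle
  have t1 := (h y w α e1 β.reverse hα he1 (by
    rw [SimpleGraph.Walk.length_reverse, hβ, SimpleGraph.dist_comm])).2.2 u (by
      rw [SimpleGraph.Walk.support_reverse, List.mem_reverse]; exact hus)
  have t2 := (h w z β e2 γ.reverse hβ he2 (by
    rw [SimpleGraph.Walk.length_reverse, hγ, SimpleGraph.dist_comm])).1 u hus
  obtain ⟨p1, hp1, hd1⟩ := t1
  obtain ⟨p2, hp2, hd2⟩ := t2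
  have hp1' : p1 ∈ α.support := by
    rcases hp1 with h1 | h1
    · exact h1
    · exfalso
      have h2 : (G.dist y p1 : ℝ) + G.dist p1 w ≤ G.dist y w := by
        exact_mod_cast dist_add_of_mem he1 h1
      have h3 := T x p1 y
      have h4 := T x p1 w
      have h5 := T x u p1
      rw [C p1 y] at h3
      linarith
  have hp2' : p2 ∈ γ.support := by
    rcases hp2 with h1 | h1
    · exfalso
      have h2 : (G.dist w p2 : ℝ) + G.dist p2 z ≤ G.dist w z := by
        exact_mod_cast dist_add_of_mem he2 h1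
      have h3 := T x p2 w
      have h4 := T x p2 z
      have h5 := T x u p2
      rw [C p2 w] at h3
      linarith
    · rwa [SimpleGraph.Walk.support_reverse, List.mem_reverse] at h1
  have g1 : (G.dist x p1 : ℝ) + G.dist p1 y ≤ G.dist x y := by
    exact_mod_cast dist_add_of_mem hα hp1'
  have g2 : (G.dist x p2 : ℝ) + G.dist p2 z ≤ G.dist x z := by
    exact_mod_cast dist_add_of_mem hγ hp2'
  have k1 := T y p1 z
  have k2 := T p1 u z
  have k3 := T u p2 z
  have k4 := T x p1 u
  have k5 := T x p2 u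
  rw [C y p1] at k1
  rw [C p1 u] at k2 k4
  rw [C p2 u] at k5
  linarith

/-- if all geodesic triangles with vertex `x` are `δ`-thin, the four point inequality holds -/
theorem four_point {x : V} {δ : ℝ} (hG : G.Connected) (h : ThinAt G x δ) (a b c d : V) :
    (G.dist a c : ℝ) + G.dist b d ≤
      max ((G.dist a b : ℝ) + G.dist c d) ((G.dist a d : ℝ) + G.dist b c) + 4 * (3 * δ + 1) := by
  have C : ∀ a b : V, (G.dist a b : ℝ) = G.dist b a := fun a b => by rw [SimpleGraph.dist_comm]
  have g1 := gromov hG h a b c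
  have g2 := gromov hG h a d c
  have g3 := gromov hG h b a d
  have g4 := gromov hG h b c d
  rw [C b a] at g3
  rw [C d c] at g2
  generalize (G.dist x a : ℝ) = xa at *
  generalize (G.dist x b : ℝ) = xb at *
  generalize (G.dist x c : ℝ) = xc at *
  generalize (G.dist x d : ℝ) = xd at *
  generalize (G.dist a b : ℝ) = ab at *
  generalize (G.dist a c : ℝ) = ac at *
  generalize (G.dist a d : ℝ) = ad at *
  generalize (G.dist b c : ℝ) = bc at *
  generalize (G.dist b d : ℝ) = bd at *
  generalize (G.dist c d : ℝ) = cd at *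
  have m1 := le_max_left (ab + cd) (ad + bc)
  have m2 := le_max_right (ab + cd) (ad + bc)
  rcases min_cases ((xa + xb - ab) / 2) ((xb + xc - bc) / 2) with ⟨e1, f1⟩ | ⟨e1, f1⟩ <;>
  rcases min_cases ((xa + xd - ad) / 2) ((xd + xc - cd) / 2) with ⟨e2, f2⟩ | ⟨e2, f2⟩ <;>
  rcases min_cases ((xb + xa - ab) / 2) ((xa + xd - ad) / 2) with ⟨e3, f3⟩ | ⟨e3, f3⟩ <;>
  rcases min_cases ((xb + xc - bc) / 2) ((xc + xd - cd) / 2) with ⟨e4, f4⟩ | ⟨e4, f4⟩ <;>
  rw [e1] at g1 <;> rw [e2] at g2 <;> rw [e3] at g3 <;> rw [e4] at g4 <;> linarith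

end Pool.Agent.X143.VT
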