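import Pool.Agent.Y979.HV.Main

/-!
# Lower bound for graph distances in the Voronoi graph of a locally dense set
-/

set_option autoImplicit false

namespace Pool.Agent.X143.VT

open UpperHalfPlane Pool.Agent.Y979.HV

theorem adj_radius {A : Set ℍ} {p0 : ℍ} {K R : ℝ} (hR : 0 < R)
    (hcov : ∀ b : ℍ, dist b p0 ≤ K + 2 * R → ∃ q ∈ A, dist b q < R) {p p' : A}
    (hadj : (voronoiGraph A).Adj p p') (hp : dist (p : ℍ) p0 < K) :
    dist (p : ℍ) (p' : ℍ) ≤ 2 * R := by
  obtain ⟨z, hz, hz'⟩ := exists_touch hadj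
  have h1 : dist z (p : ℍ) ≤ R := by
    by_contra hcon
    push Not at hcon
    have h2 : R ≤ dist (p : ℍ) z := by rw [dist_comm]; exact hcon.le
    obtain ⟨b, hb1, hb2⟩ := exists_on_segment hR.le h2
    have h3 : dist b p0 ≤ K + 2 * R := by
      have := dist_triangle b (p : ℍ) p0
      rw [dist_comm b (p : ℍ), hb1] at this
      linarith
    obtain ⟨q, hq, hbq⟩ := hcov b h3
    have h4 := hz q hq
    have h5 := dist_triangle z b q
    rw [dist_comm z b, hb2] at h5
    rw [dist_comm z (p : ℍ)] at h4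
    linarith
  have h2 : dist z (p' : ℍ) ≤ R := (hz' p p.2).trans h1
  have h3 := dist_triangle (p : ℍ) z (p' : ℍ)
  rw [dist_comm (p : ℍ) z] at h3
  linarith

theorem adj_min {A : Set ℍ} {p0 : ℍ} {K R : ℝ} (hR : 0 < R)
    (hcov : ∀ b : ℍ, dist b p0 ≤ K + 2 * R → ∃ q ∈ A, dist b q < R) {p p' : A}
    (hadj : (voronoiGraph A).Adj p p') :
    min (dist (p' : ℍ) p0) K ≤ min (dist (p : ℍ) p0) K + 2 * R := by
  by_cases h1 : dist (p : ℍ) p0 < K
  · have h2 := adj_radius hR hcov hadj h1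
    have h3 := dist_triangle (p' : ℍ) (p : ℍ) p0
    rw [dist_comm (p' : ℍ) (p : ℍ)] at h3
    rw [min_eq_left h1.le]
    exact (min_le_left _ _).trans (by linarith)
  · push Not at h1
    rw [min_eq_right h1]
    exact (min_le_right _ _).trans (by linarith)

theorem walk_min {A : Set ℍ} {p0 : ℍ} {K R : ℝ} (hR : 0 < R)
    (hcov : ∀ b : ℍ, dist b p0 ≤ K + 2 * R → ∃ q ∈ A, dist b q < R) {p q : A}
    (w : (voronoiGraph A).Walk p q) :
    min (dist (q : ℍ) p0) K ≤ min (dist (p : ℍ) p0) K + 2 * R * w.length := by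
  induction w with
  | nil => simp
  | cons h w ih =>
    have h1 := adj_min hR hcov h
    rw [SimpleGraph.Walk.length_cons]
    push_cast
    linarith

/-- the lower bound for the graph distance -/
theorem lower_bound {A : Set ℍ} {K R : ℝ} (hR : 0 < R) (hconn : (voronoiGraph A).Connected)
    {p q : A} (hcov : ∀ b : ℍ, dist b (p : ℍ) ≤ K + 2 * R → ∃ q ∈ A, dist b q < R)
    (hK : K ≤ dist (q : ℍ) (p : ℍ)) (hK0 : 0 ≤ K) :
    K ≤ 2 * R * (voronoiGraph A).dist p q := by
  obtain ⟨w, hw⟩ := hconn.exists_walk_length_eq_dist p q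
  have h1 := walk_min hR hcov w
  rw [min_eq_right hK, dist_self, min_eq_left hK0, hw] at h1
  linarith

end Pool.Agent.X143.VT
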