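import Pool.Agent.Y979.HV.Main

/-!
# Comparison of the hyperbolic and the Euclidean distance near height one
-/

set_option autoImplicit false

namespace Pool.Agent.X143.VT

open UpperHalfPlane Pool.Agent.Y979.HV

theorem coe_dist_sq (z w : ℍ) :
    dist (z : ℂ) w ^ 2 = (z.re - w.re) ^ 2 + (z.im - w.im) ^ 2 := by
  rw [Complex.dist_eq, ← Complex.normSq_eq_norm_sq, Complex.normSq_apply]
  simp only [Complex.sub_re, Complex.sub_im, UpperHalfPlane.coe_re, UpperHalfPlane.coe_im]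
  ring

/-- upper bound for the hyperbolic distance -/
theorem dist_le_of {z w : ℍ} {r : ℝ} (hr : 0 ≤ r) (hz : 0.996 ≤ z.im) (hw : 0.996 ≤ w.im)
    (h : (z.re - w.re) ^ 2 + (z.im - w.im) ^ 2 ≤ r ^ 2) : dist z w ≤ r / 0.996 := by
  have h1 := UpperHalfPlane.dist_le_dist_coe_div_sqrt z w
  have h2 : dist (z : ℂ) w ≤ r := by
    rw [← coe_dist_sq] at h
    exact (sq_le_sq₀ dist_nonneg hr).mp h
  have h3 : (0.996 : ℝ) ≤ √(z.im * w.im) := by
    apply Real.le_sqrt_of_sq_le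
    nlinarith
  refine h1.trans ?_
  gcongr

theorem exp_sub_one_le {r : ℝ} (h0 : 0 ≤ r) (h1 : r ≤ 1 / 100) : Real.exp r - 1 ≤ 1.01 * r := by
  have h2 := Real.abs_exp_sub_one_sub_id_le (x := r) (by rw [abs_of_nonneg h0]; linarith)
  have h3 := (abs_le.mp h2).2
  nlinarith

/-- a small hyperbolic distance forces a small Euclidean one -/
theorem coe_dist_le_of {z w : ℍ} {r : ℝ} (hr : r ≤ 1 / 100) (hw : w.im ≤ 1.004)
    (h : dist z w ≤ r) : dist (z : ℂ) w ≤ 1.0145 * r := by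
  have h0 : 0 ≤ r := dist_nonneg.trans h
  have h1 := UpperHalfPlane.dist_coe_le z w
  have h2 : Real.exp (dist z w) - 1 ≤ 1.01 * r := by
    have := Real.exp_le_exp.mpr h
    have := exp_sub_one_le h0 hr
    linarith
  have h3 : w.im * (Real.exp (dist z w) - 1) ≤ 1.004 * (1.01 * r) := by
    have hw0 := w.im_pos
    have h4 : 0 ≤ Real.exp (dist z w) - 1 := by
      have := Real.one_le_exp (dist_nonneg : 0 ≤ dist z w)
      linarith
    apply mul_le_mul hw h2 h4 (by norm_num)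
  linarith

theorem coord_le_of {z w : ℍ} {r : ℝ} (hr : r ≤ 1 / 100) (hw : w.im ≤ 1.004)
    (h : dist z w ≤ r) : |z.re - w.re| ≤ 1.0145 * r ∧ |z.im - w.im| ≤ 1.0145 * r := by
  have h1 := coe_dist_le_of hr hw h
  have h0 : 0 ≤ r := dist_nonneg.trans h
  have h2 := coe_dist_sq z w
  have h3 : dist (z : ℂ) w ^ 2 ≤ (1.0145 * r) ^ 2 := by
    have : (0 : ℝ) ≤ dist (z : ℂ) w := dist_nonneg
    gcongr
  constructor
  · apply abs_le_of_sq_le_sq _ (by positivity)
    nlinarith [sq_nonneg (z.im - w.im)]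
  · apply abs_le_of_sq_le_sq _ (by positivity)
    nlinarith [sq_nonneg (z.re - w.re)]

/-- sharper version: `r ≤ 0.0014` -/
theorem coe_dist_le_of' {z w : ℍ} {r : ℝ} (hr : r ≤ 0.0015) (hw : w.im ≤ 1.004)
    (h : dist z w ≤ r) : dist (z : ℂ) w ≤ 1.006 * r := by
  have h0 : 0 ≤ r := dist_nonneg.trans h
  have h1 := UpperHalfPlane.dist_coe_le z w
  have h2 : Real.exp (dist z w) - 1 ≤ 1.0015 * r := by
    have h3 := Real.exp_le_exp.mpr h
    have h4 := Real.abs_exp_sub_one_sub_id_le (x := r) (by rw [abs_of_nonneg h0]; linarith)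
    have h5 := (abs_le.mp h4).2
    nlinarith
  have h3 : w.im * (Real.exp (dist z w) - 1) ≤ 1.004 * (1.0015 * r) := by
    have hw0 := w.im_pos
    have h4 : 0 ≤ Real.exp (dist z w) - 1 := by
      have := Real.one_le_exp (dist_nonneg : 0 ≤ dist z w)
      linarith
    apply mul_le_mul hw h2 h4 (by norm_num)
  linarith

/-- lower bound for the hyperbolic distance of two points whose coordinates differ by at least
`L` -/
theorem le_dist_of {z w : ℍ} {L : ℝ} (hL0 : 0 < L) (hL : 1.4 * L ≤ 0.0015) (hw : w.im ≤ 1.004)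
    (h1 : L ≤ |z.re - w.re|) (h2 : L ≤ |z.im - w.im|) : 1.4 * L ≤ dist z w := by
  by_contra hcon
  push Not at hcon
  have h3 := coe_dist_le_of' hL hw hcon.le
  have h4 := coe_dist_sq z w
  have h5 : L ^ 2 ≤ (z.re - w.re) ^ 2 := by
    rw [← sq_abs (z.re - w.re)]; gcongr
  have h6 : L ^ 2 ≤ (z.im - w.im) ^ 2 := by
    rw [← sq_abs (z.im - w.im)]; gcongr
  have h7 : dist (z : ℂ) w ^ 2 ≤ (1.006 * (1.4 * L)) ^ 2 := by
    have : (0 : ℝ) ≤ dist (z : ℂ) w := dist_nonneg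
    gcongr
  nlinarith

/-- comparison of two distances -/
theorem dist_lt_of {z p q : ℍ} (hp : 0.996 ≤ p.im) (hq : q.im ≤ 1.004)
    (h : 1.01 * ((z.re - p.re) ^ 2 + (z.im - p.im) ^ 2) <
      (z.re - q.re) ^ 2 + (z.im - q.im) ^ 2) : dist z p < dist z q := by
  have h1 : Real.cosh (dist z p) < Real.cosh (dist z q) := by
    rw [UpperHalfPlane.cosh_dist, UpperHalfPlane.cosh_dist, coe_dist_sq, coe_dist_sq]
    have hz := z.im_pos
    have hp0 := p.im_pos
    have hq0 := q.im_pos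
    have e1 : 0 ≤ (z.re - p.re) ^ 2 + (z.im - p.im) ^ 2 := by positivity
    rw [add_lt_add_iff_left, div_lt_div_iff₀ (by positivity) (by positivity)]
    have h2 : ((z.re - p.re) ^ 2 + (z.im - p.im) ^ 2) * q.im <
        ((z.re - q.re) ^ 2 + (z.im - q.im) ^ 2) * p.im := by
      nlinarith
    nlinarith
  rwa [Real.cosh_lt_cosh, abs_of_nonneg dist_nonneg, abs_of_nonneg dist_nonneg] at h1

/-- adjacency by the intermediate value theorem on two disjoint curves -/
theorem adj_of_sign {A : Set ℍ} {p q : A} (hpq : p ≠ q) (Mid : Set ℍ)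
    (hMid : ∀ z ∈ Mid, ∀ y ∈ A, y ≠ p → y ≠ q → dist z p ≤ dist z y ∧ dist z q ≤ dist z y)
    (γ1 γ2 : ℝ → ℍ) (hc1 : Continuous γ1) (hc2 : Continuous γ2)
    (hm1 : ∀ t ∈ Set.Icc (0 : ℝ) 1, γ1 t ∈ Mid) (hm2 : ∀ t ∈ Set.Icc (0 : ℝ) 1, γ2 t ∈ Mid)
    (h10 : dist (γ1 0) p ≤ dist (γ1 0) q) (h11 : dist (γ1 1) q ≤ dist (γ1 1) p)
    (h20 : dist (γ2 0) p ≤ dist (γ2 0) q) (h21 : dist (γ2 1) q ≤ dist (γ2 1) p)
    (hne : ∀ t t', γ1 t ≠ γ2 t') : (voronoiGraph A).Adj p q := by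
  have key : ∀ γ : ℝ → ℍ, Continuous γ → (∀ t ∈ Set.Icc (0 : ℝ) 1, γ t ∈ Mid) →
      dist (γ 0) p ≤ dist (γ 0) q → dist (γ 1) q ≤ dist (γ 1) p →
      ∃ t, γ t ∈ cell A p ∩ cell A q := by
    intro γ hc hm h0 h1
    have hf : ContinuousOn (fun t => dist (γ t) (p : ℍ) - dist (γ t) (q : ℍ)) (Set.Icc 0 1) :=
      ((hc.dist continuous_const).sub (hc.dist continuous_const)).continuousOn
    obtain ⟨t, ht, hft⟩ := intermediate_value_Icc zero_le_one hf
      (show (0 : ℝ) ∈ Set.Icc _ _ from ⟨by simpa using h0, by simpa using h1⟩)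
    have heq : dist (γ t) (p : ℍ) = dist (γ t) (q : ℍ) := by
      have : dist (γ t) (p : ℍ) - dist (γ t) (q : ℍ) = 0 := hft
      linarith
    refine ⟨t, fun y hy => ?_, fun y hy => ?_⟩
    · by_cases hyp : y = p
      · rw [hyp]
      · by_cases hyq : y = q
        · rw [hyq]; exact heq.le
        · exact (hMid _ (hm t ht) y hy hyp hyq).1
    · by_cases hyp : y = p
      · rw [hyp]; exact heq.ge
      · by_cases hyq : y = q
        · rw [hyq]
        · exact (hMid _ (hm t ht) y hy hyp hyq).2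
  obtain ⟨t1, ht1⟩ := key γ1 hc1 hm1 h10 h11
  obtain ⟨t2, ht2⟩ := key γ2 hc2 hm2 h20 h21
  exact adj_of_two hpq (hne t1 t2) ht1 ht2

/-- the point of the upper half plane with the given coordinates, if the second one is positive -/
noncomputable def pt (x y : ℝ) : ℍ := if h : 0 < y then ⟨⟨x, y⟩, h⟩ else I

theorem pt_re {x y : ℝ} (h : 0 < y) : (pt x y).re = x := by
  unfold pt; rw [dif_pos h]; rfl

theorem pt_im {x y : ℝ} (h : 0 < y) : (pt x y).im = y := by
  unfold pt; rw [dif_pos h]; rfl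

theorem continuous_pt {f g : ℝ → ℝ} (hf : Continuous f) (hg : Continuous g)
    (hpos : ∀ t, 0 < g t) : Continuous fun t => pt (f t) (g t) := by
  refine UpperHalfPlane.isEmbedding_coe.continuous_iff.mpr ?_
  have h4 : (UpperHalfPlane.coe ∘ fun t => pt (f t) (g t)) = fun t : ℝ =>
      ((f t : ℝ) : ℂ) + ((g t : ℝ) : ℂ) * Complex.I := by
    funext t
    apply Complex.ext
    · simp [pt, hpos t]
    · simp [pt, hpos t]
  rw [h4]
  exact (Complex.continuous_ofReal.comp hf).add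
    ((Complex.continuous_ofReal.comp hg).mul continuous_const)

end Pool.Agent.X143.VT
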