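import Pool.Agent.X143.VT.Det

/-!
# Almost surely the Poisson process contains all local configurations
-/

set_option autoImplicit false

namespace Pool.Agent.X143.VT

open UpperHalfPlane Pool.Agent.Y979.HV MeasureTheory ProbabilityTheory
open scoped ENNReal

variable {Ω : Type*} [MeasurableSpace Ω] {P : Measure Ω} [IsProbabilityMeasure P] {lam : ℝ}
  {Q : Ω → Set ℍ}

/-- independence for arbitrary families -/
theorem indep_family (hQ : IsPoissonProcess P lam Q) {ι : Type*} (B : ι → Set ℍ)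
    (hB : ∀ i, MeasurableSet (B i)) (hd : Pairwise fun i j => Disjoint (B i) (B j)) :
    iIndepFun (fun i ω => (Q ω ∩ B i).encard) P := by
  rw [iIndepFun_iff_finset]
  intro S
  have h := hQ.indep_count S.card (fun i => B (S.equivFin.symm i)) (fun i => hB _)
    (fun i j hij => hd (by
      intro hcon
      exact hij (S.equivFin.symm.injective (Subtype.ext hcon))))
  have h2 := iIndepFun.precomp (g := S.equivFin) S.equivFin.injective h
  have e : (S.restrict fun i ω => (Q ω ∩ B i).encard) =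
      fun (i : S) ω => (Q ω ∩ B (S.equivFin.symm (S.equivFin i))).encard := by
    funext i ω
    rw [Equiv.symm_apply_apply]
    rfl
  rw [e]
  exact h2

/-- index set of one coordinate -/
abbrev Ix (n : ℕ) : Type := {i : ℤ // i ∈ Finset.Icc (-(4 * (n : ℤ) - 1)) (4 * (n : ℤ) - 1)}

theorem Ix.abs_le {n : ℕ} (i : Ix n) : |(i : ℤ)| ≤ 4 * (n : ℤ) - 1 := by
  have := i.2
  rw [Finset.mem_Icc] at this
  rw [_root_.abs_le]
  exact this

/-- the union of the small boxes -/
def smalls (n : ℕ) (s X0 : ℝ) : Set ℍ :=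
  ⋃ t : Bool × Ix n × Ix n, bx s X0 (ps n t.1 t.2.1) (ps n t.1 t.2.2)

/-- the family of sets -/
def fam (n : ℕ) (s X0 : ℝ) : Option (Bool × Ix n × Ix n) → Set ℍ
  | some t => bx s X0 (ps n t.1 t.2.1) (ps n t.1 t.2.2)
  | none => big s X0 n \ smalls n s X0

/-- the prescribed number of points -/
def num : (n : ℕ) → Option (Bool × Ix n × Ix n) → ℕ
  | _, some _ => 1
  | _, none => 0

theorem measurableSet_bx (s X0 a b : ℝ) : MeasurableSet (bx s X0 a b) :=
  measurableSet_box measurableSet_Ico _ _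

theorem measurableSet_big (s X0 : ℝ) (n : ℕ) : MeasurableSet (big s X0 n) :=
  measurableSet_box measurableSet_Ico _ _

theorem measurableSet_fam (n : ℕ) (s X0 : ℝ) (o : Option (Bool × Ix n × Ix n)) :
    MeasurableSet (fam n s X0 o) := by
  cases o with
  | none =>
    exact (measurableSet_big s X0 n).diff (MeasurableSet.iUnion fun t => measurableSet_bx _ _ _ _)
  | some t => exact measurableSet_bx _ _ _ _

theorem ps_abs_le {n : ℕ} (σ : Bool) (i : Ix n) : |ps n σ i| ≤ 4 * (n : ℝ) - 2 / 5 := by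
  have h := i.abs_le
  have h' : |((i : ℤ) : ℝ)| ≤ 4 * (n : ℝ) - 1 := by exact_mod_cast h
  have a1 := ee_le n i
  have a2 := le_ee n i
  rw [_root_.abs_le] at *
  cases σ
  · rw [ps_false]
    constructor <;> linarith [h'.1, h'.2]
  · rw [ps_true]
    constructor <;> linarith [h'.1, h'.2]

theorem bx_subset_big {n : ℕ} {s X0 : ℝ} (hs : 0 < s) (t : Bool × Ix n × Ix n) :
    bx s X0 (ps n t.1 t.2.1) (ps n t.1 t.2.2) ⊆ big s X0 n := by
  intro z hz
  obtain ⟨h1, h2⟩ := mem_bx hs hz
  have h3 := ps_abs_le t.1 t.2.1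
  have h4 := ps_abs_le t.1 t.2.2
  rw [_root_.abs_le] at *
  apply mem_big hs
  · rw [abs_lt]; constructor <;> linarith [h1.1, h1.2, h3.1, h3.2]
  · rw [abs_lt]; constructor <;> linarith [h2.1, h2.2, h4.1, h4.2]

theorem fam_subset_big {n : ℕ} {s X0 : ℝ} (hs : 0 < s) (o : Option (Bool × Ix n × Ix n)) :
    fam n s X0 o ⊆ big s X0 n := by
  cases o with
  | none => exact Set.sdiff_subset
  | some t => exact bx_subset_big hs t

theorem fam_disjoint {n : ℕ} {s X0 : ℝ} (hs : 0 < s) {o o' : Option (Bool × Ix n × Ix n)}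
    (h : o ≠ o') : Disjoint (fam n s X0 o) (fam n s X0 o') := by
  cases o with
  | none =>
    cases o' with
    | none => exact absurd rfl h
    | some t =>
      refine Set.disjoint_left.mpr fun z hz hz' => hz.2 (Set.mem_iUnion.mpr ⟨t, hz'⟩)
  | some t =>
    cases o' with
    | none =>
      refine Set.disjoint_left.mpr fun z hz hz' => hz'.2 (Set.mem_iUnion.mpr ⟨t, hz⟩)
    | some t' =>
      refine Set.disjoint_left.mpr fun z hz hz' => ?_
      obtain ⟨h1, h2⟩ := mem_bx hs hz
      obtain ⟨h3, h4⟩ := mem_bx hs hz'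
      have hne : ¬ (t.1 = t'.1 ∧ (t.2.1 : ℤ) = t'.2.1) ∨ ¬ (t.1 = t'.1 ∧ (t.2.2 : ℤ) = t'.2.2) := by
        by_contra hcon
        push Not at hcon
        obtain ⟨⟨e1, e2⟩, _, e3⟩ := hcon
        exact h (congrArg some (Prod.ext e1 (Prod.ext (Subtype.ext e2) (Subtype.ext e3))))
      rw [_root_.abs_le] at h1 h2 h3 h4
      rcases hne with hne | hne
      · have h5 := ps_sep (n := n) hne
        rw [le_abs] at h5
        rcases h5 with h5 | h5 <;> linarith [h1.1, h1.2, h3.1, h3.2]
      · have h5 := ps_sep (n := n) hne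
        rw [le_abs] at h5
        rcases h5 with h5 | h5 <;> linarith [h2.1, h2.2, h4.1, h4.2]

/-- all copies -/
def copies (n : ℕ) (s : ℝ) (k : ℕ × Option (Bool × Ix n × Ix n)) : Set ℍ := fam n s k.1 k.2

theorem big_disjoint {n : ℕ} {s : ℝ} (hs : 0 < s) (hns : (n : ℝ) * s = 1 / 1000) {k k' : ℕ}
    (h : k ≠ k') : Disjoint (big s k n) (big s k' n) := by
  refine Set.disjoint_left.mpr fun z hz hz' => ?_
  obtain ⟨⟨h1, h2⟩, _⟩ := hz
  obtain ⟨⟨h3, h4⟩, _⟩ := hz'
  rcases lt_or_gt_of_ne h with h5 | h5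
  · have : (k : ℝ) + 1 ≤ k' := by exact_mod_cast h5
    nlinarith
  · have : (k' : ℝ) + 1 ≤ k := by exact_mod_cast h5
    nlinarith

theorem copies_disjoint {n : ℕ} {s : ℝ} (hs : 0 < s) (hns : (n : ℝ) * s = 1 / 1000) :
    Pairwise fun k k' => Disjoint (copies n s k) (copies n s k') := by
  rintro ⟨k, o⟩ ⟨k', o'⟩ h
  by_cases hk : k = k'
  · subst hk
    exact fam_disjoint hs (by rintro rfl; exact h rfl)
  · exact (big_disjoint hs hns hk).mono (fam_subset_big hs o) (fam_subset_big hs o')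

theorem volume_bx {s X0 a b : ℝ} (hs : 0 < s) (hc : 0 < 1 + (b - 1 / 100) * s) :
    volume (bx s X0 a b) = ENNReal.ofReal (1 / 50 * s) *
      ENNReal.ofReal (1 / (1 + (b - 1 / 100) * s) - 1 / (1 + (b + 1 / 100) * s)) := by
  unfold bx
  rw [volume_box measurableSet_Ico hc (by nlinarith), Real.volume_Ico]
  congr 2
  ring

theorem volume_big_le {s X0 : ℝ} {n : ℕ} (hs : 0 < s) (hns : (n : ℝ) * s = 1 / 1000) :
    volume (big s X0 n) ≤ 1 := by
  unfold big
  have e1 : 1 - 4 * (n : ℝ) * s = 0.996 := by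
    have : 4 * (n : ℝ) * s = 4 * ((n : ℝ) * s) := by ring
    rw [this, hns]; norm_num
  have e2 : 1 + 4 * (n : ℝ) * s = 1.004 := by
    have : 4 * (n : ℝ) * s = 4 * ((n : ℝ) * s) := by ring
    rw [this, hns]; norm_num
  have e3 : X0 + 4 * (n : ℝ) * s - (X0 - 4 * n * s) = 0.008 := by
    have : X0 + 4 * (n : ℝ) * s - (X0 - 4 * n * s) = 8 * ((n : ℝ) * s) := by ring
    rw [this, hns]; norm_num
  rw [volume_box measurableSet_Ico (by rw [e1]; norm_num) (by rw [e1, e2]; norm_num),
    Real.volume_Ico, e3, e1, e2, ← ENNReal.ofReal_mul (by norm_num), ← ENNReal.ofReal_one]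
  apply ENNReal.ofReal_le_ofReal
  norm_num

/-- the good event of the copy number `k` -/
def good (Q : Ω → Set ℍ) (n : ℕ) (s : ℝ) (k : ℕ) : Set Ω :=
  ⋂ o ∈ (Finset.univ : Finset (Option (Bool × Ix n × Ix n))),
    {ω | (Q ω ∩ copies n s (k, o)).encard = ((num n o : ℕ) : ℕ∞)}

theorem good_tmpl {n : ℕ} {s : ℝ} {k : ℕ} {ω : Ω} (h : ω ∈ good Q n s k) :
    Tmpl n s k (Q ω) := by
  have h' : ∀ o, (Q ω ∩ fam n s k o).encard = ((num n o : ℕ) : ℕ∞) := by
    intro o
    have := Set.mem_iInter₂.mp h o (Finset.mem_univ o)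
    exact this
  have hx : ∀ i : ℤ, |i| ≤ 4 * (n : ℤ) - 1 →
      i ∈ Finset.Icc (-(4 * (n : ℤ) - 1)) (4 * (n : ℤ) - 1) := by
    intro i hi
    rw [Finset.mem_Icc]
    exact _root_.abs_le.mp hi
  refine ⟨?_, ?_, ?_⟩
  · intro σ i j hi hj
    have h1 := h' (some (σ, ⟨i, hx i hi⟩, ⟨j, hx j hj⟩))
    simp only [num, Nat.cast_one, Set.encard_eq_one] at h1
    obtain ⟨z, hz⟩ := h1
    have hz' : z ∈ Q ω ∩ fam n s k (some (σ, ⟨i, hx i hi⟩, ⟨j, hx j hj⟩)) := by rw [hz]; rfl
    exact ⟨z, hz'.1, hz'.2⟩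
  · intro σ i j hi hj z hz z' hz' hb hb'
    have h1 := h' (some (σ, ⟨i, hx i hi⟩, ⟨j, hx j hj⟩))
    simp only [num, Nat.cast_one, Set.encard_eq_one] at h1
    obtain ⟨w, hw⟩ := h1
    have e1 : z ∈ Q ω ∩ fam n s k (some (σ, ⟨i, hx i hi⟩, ⟨j, hx j hj⟩)) := ⟨hz, hb⟩
    have e2 : z' ∈ Q ω ∩ fam n s k (some (σ, ⟨i, hx i hi⟩, ⟨j, hx j hj⟩)) := ⟨hz', hb'⟩
    rw [hw, Set.mem_singleton_iff] at e1 e2
    rw [e1, e2]
  · intro z hz hbig
    have h1 := h' none
    simp only [num, Nat.cast_zero, Set.encard_eq_zero] at h1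
    by_contra hcon
    have h2 : z ∈ Q ω ∩ fam n s k none := by
      refine ⟨hz, hbig, fun hU => ?_⟩
      obtain ⟨t, ht⟩ := Set.mem_iUnion.mp hU
      exact hcon ⟨t.1, t.2.1, t.2.2, t.2.1.abs_le, t.2.2.abs_le, ht⟩
    rw [h1] at h2
    exact h2

theorem event_prob (hQ : IsPoissonProcess P lam Q) {n : ℕ} {s : ℝ} (hs : 0 < s)
    (hns : (n : ℝ) * s = 1 / 1000) (k : ℕ × Option (Bool × Ix n × Ix n)) :
    P {ω | (Q ω ∩ copies n s k).encard = ((num n k.2 : ℕ) : ℕ∞)} =
      ENNReal.ofReal (Real.exp (-(lam * (volume (copies n s k)).toReal)) *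
        (lam * (volume (copies n s k)).toReal) ^ (num n k.2) / ((num n k.2).factorial : ℝ)) := by
  apply hQ.law_count _ (measurableSet_fam _ _ _ _)
  exact ne_top_of_le_ne_top ENNReal.one_ne_top
    ((measure_mono (fam_subset_big hs k.2)).trans (volume_big_le hs hns))

/-- the lower bounds for the probabilities -/
noncomputable def low (lam : ℝ) (n : ℕ) (s : ℝ) : Option (Bool × Ix n × Ix n) → ℝ≥0∞
  | none => ENNReal.ofReal (Real.exp (-lam))
  | some t => ENNReal.ofReal (Real.exp (-(lam * (volume (fam n s 0 (some t))).toReal)) *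
        (lam * (volume (fam n s 0 (some t))).toReal))

theorem pos_coord {n : ℕ} {s : ℝ} (hs : 0 < s) (hns : (n : ℝ) * s = 1 / 1000) (σ : Bool)
    (i : Ix n) : 0 < 1 + (ps n σ i - 1 / 100) * s := by
  have h3 := ps_abs_le σ i
  rw [_root_.abs_le] at h3
  nlinarith [h3.1, h3.2]

theorem low_ne_zero (hlam : 0 < lam) {n : ℕ} {s : ℝ} (hs : 0 < s)
    (hns : (n : ℝ) * s = 1 / 1000) (o : Option (Bool × Ix n × Ix n)) : low lam n s o ≠ 0 := by
  cases o with
  | none =>
    unfold low
    rw [Ne, ENNReal.ofReal_eq_zero, not_le]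
    exact Real.exp_pos _
  | some t =>
    unfold low
    have h1 := pos_coord hs hns t.1 t.2.2
    have h2 : 0 < volume (fam n s 0 (some t)) := by
      show 0 < volume (bx s 0 (ps n t.1 t.2.1) (ps n t.1 t.2.2))
      rw [volume_bx hs h1]
      apply ENNReal.mul_pos
      · rw [Ne, ENNReal.ofReal_eq_zero, not_le]; positivity
      · rw [Ne, ENNReal.ofReal_eq_zero, not_le, sub_pos]
        apply one_div_lt_one_div_of_lt h1
        nlinarith
    have h3 : volume (fam n s 0 (some t)) ≠ ⊤ := ne_top_of_le_ne_top ENNReal.one_ne_top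
      ((measure_mono (fam_subset_big hs (some t))).trans (volume_big_le hs hns))
    have h4 := ENNReal.toReal_pos h2.ne' h3
    rw [Ne, ENNReal.ofReal_eq_zero, not_le]
    positivity

theorem low_le (hQ : IsPoissonProcess P lam Q) (hlam : 0 < lam) {n : ℕ} {s : ℝ} (hs : 0 < s)
    (hns : (n : ℝ) * s = 1 / 1000) (k : ℕ) (o : Option (Bool × Ix n × Ix n)) :
    low lam n s o ≤ P {ω | (Q ω ∩ copies n s (k, o)).encard = ((num n o : ℕ) : ℕ∞)} := by
  have h := event_prob hQ hs hns (k, o)
  simp only at h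
  rw [h]
  cases o with
  | none =>
    unfold low
    simp only [num, pow_zero, mul_one, Nat.factorial_zero, Nat.cast_one, div_one]
    apply ENNReal.ofReal_le_ofReal
    apply Real.exp_le_exp.mpr
    have h1 : (volume (copies n s (k, none))).toReal ≤ 1 := by
      have := (measure_mono (fam_subset_big (X0 := k) hs (none : Option (Bool × Ix n × Ix n)))).trans
        (volume_big_le hs hns)
      have h2 := ENNReal.toReal_mono ENNReal.one_ne_top this
      rw [ENNReal.toReal_one] at h2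
      exact h2
    nlinarith
  | some t =>
    unfold low
    have e : volume (copies n s (k, some t)) = volume (fam n s 0 (some t)) := by
      show volume (bx s k (ps n t.1 t.2.1) (ps n t.1 t.2.2)) =
        volume (bx s 0 (ps n t.1 t.2.1) (ps n t.1 t.2.2))
      rw [volume_bx hs (pos_coord hs hns t.1 t.2.2), volume_bx hs (pos_coord hs hns t.1 t.2.2)]
    rw [e]
    simp [num]

theorem ae_exists_good (hQ : IsPoissonProcess P lam Q) (hlam : 0 < lam) {n : ℕ} {s : ℝ}
    (hs : 0 < s) (hns : (n : ℝ) * s = 1 / 1000) : ∀ᵐ ω ∂P, ∃ k, ω ∈ good Q n s k := by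
  have hind := indep_family hQ (copies n s) (fun k => measurableSet_fam _ _ _ _)
    (copies_disjoint hs hns)
  set C : ℕ × Option (Bool × Ix n × Ix n) → Set ℕ∞ := fun k => {((num n k.2 : ℕ) : ℕ∞)} with hC
  have hCm : ∀ k, MeasurableSet (C k) := fun k => MeasurableSet.singleton _
  have hprod : ∀ S : Finset ℕ, P (⋂ k ∈ S, good Q n s k) =
      ∏ k ∈ S, ∏ o : Option (Bool × Ix n × Ix n),
        P {ω | (Q ω ∩ copies n s (k, o)).encard = ((num n o : ℕ) : ℕ∞)} := by
    intro S
    have h1 := hind.measure_inter_preimage_eq_mul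
      (S ×ˢ (Finset.univ : Finset (Option (Bool × Ix n × Ix n)))) (sets := C)
      (fun k _ => hCm k)
    rw [Finset.prod_product] at h1
    rw [show (⋂ k ∈ S, good Q n s k) =
      ⋂ k ∈ S ×ˢ (Finset.univ : Finset (Option (Bool × Ix n × Ix n))),
        (fun ω => (Q ω ∩ copies n s k).encard) ⁻¹' C k from ?_]
    · rw [h1]
      rfl
    · ext ω
      simp only [good, hC, Set.mem_iInter, Finset.mem_product, Finset.mem_univ, and_true,
        Set.mem_preimage, Set.mem_singleton_iff, Set.mem_ofPred_eq, Prod.forall,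
        forall_true_left]
      exact ⟨fun h a b ha => h a ha b, fun h a ha b => h a b ha⟩
  have hgm : ∀ k, MeasurableSet (good Q n s k) := by
    intro k
    refine Finset.measurableSet_biInter _ fun o _ => ?_
    exact (hQ.measurable_count _ (measurableSet_fam _ _ _ _)) (MeasurableSet.singleton _)
  have hgi : iIndepSet (good Q n s) P := by
    rw [iIndepSet_iff_meas_biInter hgm]
    intro S
    rw [hprod S]
    refine Finset.prod_congr rfl fun k _ => ?_
    have := hprod {k}
    rw [Finset.prod_singleton] at this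
    simpa using this.symm
  have hlow : ∀ k, ∏ o, low lam n s o ≤ P (good Q n s k) := by
    intro k
    have := hprod {k}
    rw [Finset.prod_singleton] at this
    have h2 : P (good Q n s k) = ∏ o : Option (Bool × Ix n × Ix n),
        P {ω | (Q ω ∩ copies n s (k, o)).encard = ((num n o : ℕ) : ℕ∞)} := by
      simpa using this
    rw [h2]
    exact Finset.prod_le_prod' fun o _ => low_le hQ hlam hs hns k o
  have hne : ∏ o, low lam n s o ≠ 0 := Finset.prod_ne_zero_iff.mpr fun o _ =>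
    low_ne_zero hlam hs hns o
  have hsum : ∑' k, P (good Q n s k) = ⊤ := by
    rw [eq_top_iff, ← ENNReal.tsum_const_eq_top_of_ne_zero (α := ℕ) hne]
    exact ENNReal.tsum_le_tsum hlow
  have hlim := measure_limsup_eq_one hgm hgi hsum
  have hae : ∀ᵐ ω ∂P, ω ∈ Filter.limsup (good Q n s) Filter.atTop := by
    rw [ae_iff]
    have hm : MeasurableSet (Filter.limsup (good Q n s) Filter.atTop) :=
      MeasurableSet.measurableSet_limsup hgm
    have := prob_compl_eq_zero_iff (μ := P) hm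
    exact this.mpr hlim
  filter_upwards [hae] with ω hω
  rw [Filter.mem_limsup_iff_frequently_mem] at hω
  exact hω.exists

end Pool.Agent.X143.VT
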