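import Pool.Agent.X143.VT.Metric
import Pool.Agent.X143.VT.Lower
import Pool.Agent.X143.VT.FourPoint

/-!
# A local configuration whose Voronoi graph violates the four point inequality
-/

set_option autoImplicit false

namespace Pool.Agent.X143.VT

open UpperHalfPlane Pool.Agent.Y979.HV

/-- displacement of the centres of the unit squares -/
noncomputable def ee (n i : ℤ) : ℝ :=
  if i = 0 ∨ i = n then 1 / 10 else if i = -1 ∨ i = n - 1 then -(1 / 10) else 0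

/-- positions: the integers, and the displaced half-integers -/
noncomputable def ps (n : ℤ) (σ : Bool) (i : ℤ) : ℝ :=
  if σ = true then (i : ℝ) + 1 / 2 + ee n i else (i : ℝ)

theorem ee_le (n i : ℤ) : ee n i ≤ 1 / 10 := by
  unfold ee; split_ifs <;> norm_num

theorem le_ee (n i : ℤ) : -(1 / 10) ≤ ee n i := by
  unfold ee; split_ifs <;> norm_num

theorem ps_false (n i : ℤ) : ps n false i = i := by simp [ps]

theorem ps_true (n i : ℤ) : ps n true i = (i : ℝ) + 1 / 2 + ee n i := by simp [ps]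

theorem int_cases (i j : ℤ) : (i : ℝ) ≤ j - 1 ∨ i = j ∨ (j : ℝ) + 1 ≤ i := by
  rcases lt_trichotomy i j with h | h | h
  · left; have : i ≤ j - 1 := by omega
    exact_mod_cast this
  · right; left; exact h
  · right; right; have : j + 1 ≤ i := by omega
    exact_mod_cast this

theorem int_le_or (i j : ℤ) : (i : ℝ) ≤ j ∨ (j : ℝ) + 1 ≤ i := by
  rcases le_or_gt i j with h | h
  · left; exact_mod_cast h
  · right; have : j + 1 ≤ i := by omega
    exact_mod_cast this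

theorem ps_sep {n : ℤ} {σ σ' : Bool} {i i' : ℤ} (h : ¬ (σ = σ' ∧ i = i')) :
    2 / 5 ≤ |ps n σ i - ps n σ' i'| := by
  have a1 := ee_le n i
  have a2 := le_ee n i
  have a3 := ee_le n i'
  have a4 := le_ee n i'
  rw [le_abs]
  cases σ <;> cases σ' <;> simp only [ps_false, ps_true]
  · rcases int_cases i i' with h1 | h1 | h1
    · right; linarith
    · exact absurd ⟨rfl, h1⟩ h
    · left; linarith
  · rcases int_le_or i i' with h1 | h1
    · right; linarith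
    · left; linarith
  · rcases int_le_or i' i with h1 | h1
    · left; linarith
    · right; linarith
  · rcases int_cases i i' with h1 | h1 | h1
    · right; linarith
    · exact absurd ⟨rfl, h1⟩ h
    · left; linarith

theorem ps_row {n : ℤ} (hn : 2 ≤ n) {J : ℤ} (hJ : J = 0 ∨ J = n) (i : ℤ) :
    3 / 5 ≤ |ps n true i - J| := by
  have a1 := ee_le n i
  have a2 := le_ee n i
  rw [ps_true, le_abs]
  rcases int_cases i J with h1 | h1 | h1
  · -- i ≤ J - 1
    right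
    by_cases h2 : i = J - 1
    · have : ee n i = -(1 / 10) := by
        unfold ee
        rw [if_neg (by omega), if_pos (by omega)]
      rw [this]
      linarith
    · have h3 : i ≤ J - 2 := by
        have : i ≤ J - 1 := by exact_mod_cast h1
        omega
      have h4 : (i : ℝ) ≤ J - 2 := by exact_mod_cast h3
      linarith
  · left
    have : ee n i = 1 / 10 := by
      unfold ee
      rw [if_pos (by omega)]
    rw [this, h1]
    linarith
  · left
    linarith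

variable (s X0 : ℝ)

/-- first coordinate in units of `s` -/
noncomputable def cu (z : ℍ) : ℝ := (z.re - X0) / s

/-- second coordinate in units of `s` -/
noncomputable def cv (z : ℍ) : ℝ := (z.im - 1) / s

/-- the small box around the position `(a, b)` -/
def bx (a b : ℝ) : Set ℍ :=
  box (Set.Ico (X0 + (a - 1 / 100) * s) (X0 + (a + 1 / 100) * s))
    (1 + (b - 1 / 100) * s) (1 + (b + 1 / 100) * s)

/-- the large box -/
def big (n : ℕ) : Set ℍ :=
  box (Set.Ico (X0 - 4 * n * s) (X0 + 4 * n * s)) (1 - 4 * n * s) (1 + 4 * n * s)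

variable {s X0}

theorem re_eq (hs : 0 < s) (z : ℍ) : z.re = X0 + cu s X0 z * s := by
  unfold cu; field_simp; ring

theorem im_eq (hs : 0 < s) (z : ℍ) : z.im = 1 + cv s z * s := by
  unfold cv; field_simp; ring

theorem mem_bx (hs : 0 < s) {a b : ℝ} {z : ℍ} (h : z ∈ bx s X0 a b) :
    |cu s X0 z - a| ≤ 1 / 100 ∧ |cv s z - b| ≤ 1 / 100 := by
  obtain ⟨⟨h1, h2⟩, h3, h4⟩ := h
  rw [re_eq (X0 := X0) hs z] at h1 h2
  rw [im_eq hs z] at h3 h4
  have e1 : a - 1 / 100 ≤ cu s X0 z := le_of_mul_le_mul_right (by linarith) hs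
  have e2 : cu s X0 z ≤ a + 1 / 100 := le_of_mul_le_mul_right (by linarith) hs
  have e3 : b - 1 / 100 ≤ cv s z := le_of_mul_le_mul_right (by linarith) hs
  have e4 : cv s z ≤ b + 1 / 100 := le_of_mul_le_mul_right (by linarith) hs
  constructor <;> rw [abs_le] <;> constructor <;> linarith

theorem mem_big (hs : 0 < s) {n : ℕ} {z : ℍ} (h1 : |cu s X0 z| < 4 * n) (h2 : |cv s z| < 4 * n) :
    z ∈ big s X0 n := by
  rw [abs_lt] at h1 h2
  refine ⟨⟨?_, ?_⟩, ?_, ?_⟩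
  · rw [re_eq (X0 := X0) hs z]; nlinarith
  · rw [re_eq (X0 := X0) hs z]; nlinarith
  · rw [im_eq hs z]; nlinarith
  · rw [im_eq hs z]; nlinarith

theorem im_bounds (hs : 0 < s) {n : ℕ} (hns : (n : ℝ) * s = 1 / 1000) {z : ℍ}
    (h2 : |cv s z| ≤ 4 * n) : 0.996 ≤ z.im ∧ z.im ≤ 1.004 := by
  rw [abs_le] at h2
  rw [im_eq hs z]
  constructor <;> nlinarith

/-- the local configuration -/
structure Tmpl (n : ℕ) (s X0 : ℝ) (A : Set ℍ) : Prop where
  ex : ∀ (σ : Bool) (i j : ℤ), |i| ≤ 4 * n - 1 → |j| ≤ 4 * n - 1 →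
    ∃ z ∈ A, z ∈ bx s X0 (ps n σ i) (ps n σ j)
  uniq : ∀ (σ : Bool) (i j : ℤ), |i| ≤ 4 * n - 1 → |j| ≤ 4 * n - 1 →
    ∀ z ∈ A, ∀ z' ∈ A, z ∈ bx s X0 (ps n σ i) (ps n σ j) →
      z' ∈ bx s X0 (ps n σ i) (ps n σ j) → z = z'
  cov : ∀ z ∈ A, z ∈ big s X0 n → ∃ (σ : Bool) (i j : ℤ), |i| ≤ 4 * n - 1 ∧ |j| ≤ 4 * n - 1 ∧
    z ∈ bx s X0 (ps n σ i) (ps n σ j)

theorem dist_le_uv (hs : 0 < s) {z w : ℍ} {r : ℝ} (hr : 0 ≤ r) (hz : 0.996 ≤ z.im)
    (hw : 0.996 ≤ w.im)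
    (h : (cu s X0 z - cu s X0 w) ^ 2 + (cv s z - cv s w) ^ 2 ≤ r ^ 2) :
    dist z w ≤ r * s / 0.996 := by
  refine dist_le_of (by positivity) hz hw ?_
  rw [re_eq (X0 := X0) hs z, re_eq (X0 := X0) hs w, im_eq hs z, im_eq hs w]
  have e : (X0 + cu s X0 z * s - (X0 + cu s X0 w * s)) ^ 2 +
      (1 + cv s z * s - (1 + cv s w * s)) ^ 2 =
      ((cu s X0 z - cu s X0 w) ^ 2 + (cv s z - cv s w) ^ 2) * s ^ 2 := by ring
  rw [e, mul_pow]
  gcongr

theorem coord_le_uv (hs : 0 < s) {z w : ℍ} {r : ℝ} (hr : r * s ≤ 1 / 100) (hw : w.im ≤ 1.004)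
    (h : dist z w ≤ r * s) :
    |cu s X0 z - cu s X0 w| ≤ 1.0145 * r ∧ |cv s z - cv s w| ≤ 1.0145 * r := by
  obtain ⟨h1, h2⟩ := coord_le_of hr hw h
  rw [re_eq (X0 := X0) hs z, re_eq (X0 := X0) hs w,
    show X0 + cu s X0 z * s - (X0 + cu s X0 w * s) = (cu s X0 z - cu s X0 w) * s by ring,
    abs_mul, abs_of_pos hs] at h1
  rw [im_eq hs z, im_eq hs w,
    show 1 + cv s z * s - (1 + cv s w * s) = (cv s z - cv s w) * s by ring,
    abs_mul, abs_of_pos hs] at h2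
  constructor
  · exact le_of_mul_le_mul_right (by linarith) hs
  · exact le_of_mul_le_mul_right (by linarith) hs

theorem le_dist_uv (hs : 0 < s) {z w : ℍ} {L : ℝ} (hL0 : 0 < L) (hL : 1.4 * (L * s) ≤ 0.0015)
    (hw : w.im ≤ 1.004) (h1 : L ≤ |cu s X0 z - cu s X0 w|) (h2 : L ≤ |cv s z - cv s w|) :
    1.4 * (L * s) ≤ dist z w := by
  refine le_dist_of (by positivity) hL hw ?_ ?_
  · rw [re_eq (X0 := X0) hs z, re_eq (X0 := X0) hs w,
      show X0 + cu s X0 z * s - (X0 + cu s X0 w * s) = (cu s X0 z - cu s X0 w) * s by ring,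
      abs_mul, abs_of_pos hs]
    gcongr
  · rw [im_eq hs z, im_eq hs w,
      show 1 + cv s z * s - (1 + cv s w * s) = (cv s z - cv s w) * s by ring,
      abs_mul, abs_of_pos hs]
    gcongr

theorem dist_lt_uv (hs : 0 < s) {z p q : ℍ} (hp : 0.996 ≤ p.im) (hq : q.im ≤ 1.004)
    (h : 1.01 * ((cu s X0 z - cu s X0 p) ^ 2 + (cv s z - cv s p) ^ 2) <
      (cu s X0 z - cu s X0 q) ^ 2 + (cv s z - cv s q) ^ 2) : dist z p < dist z q := by
  apply dist_lt_of hp hq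
  have e : ∀ w : ℍ, (z.re - w.re) ^ 2 + (z.im - w.im) ^ 2 =
      ((cu s X0 z - cu s X0 w) ^ 2 + (cv s z - cv s w) ^ 2) * s ^ 2 := by
    intro w
    rw [re_eq (X0 := X0) hs z, re_eq (X0 := X0) hs w, im_eq hs z, im_eq hs w]
    ring
  rw [e, e]
  have : 0 < s ^ 2 := by positivity
  nlinarith

/-- the integer nearest to `u`, and the displaced centre -/
theorem near_int (n : ℤ) (u : ℝ) : ∃ i' : ℤ, (i' = ⌊u⌋ ∨ i' = ⌊u⌋ + 1) ∧ |u - i'| ≤ 1 / 2 ∧
    |u - ps n true ⌊u⌋| ≤ 3 / 5 - |u - i'| := by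
  have h1 := Int.floor_le u
  have h2 := Int.lt_floor_add_one u
  have a1 := ee_le n ⌊u⌋
  have a2 := le_ee n ⌊u⌋
  rw [ps_true]
  rcases le_total u (⌊u⌋ + 1 / 2) with h | h
  · refine ⟨⌊u⌋, Or.inl rfl, ?_, ?_⟩
    · rw [abs_le]; constructor <;> linarith
    · rw [abs_of_nonneg (show (0 : ℝ) ≤ u - ⌊u⌋ by linarith), abs_le]
      constructor <;> linarith
  · refine ⟨⌊u⌋ + 1, Or.inr rfl, ?_, ?_⟩
    · push_cast
      rw [abs_le]; constructor <;> linarith
    · push_cast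
      rw [abs_of_nonpos (show u - ((⌊u⌋ : ℝ) + 1) ≤ 0 by linarith), abs_le]
      constructor <;> linarith

/-- the local configuration is dense -/
theorem Tmpl.dense {n : ℕ} {A : Set ℍ} (T : Tmpl n s X0 A) (hs : 0 < s) (hn : 5 ≤ n)
    (hns : (n : ℝ) * s = 1 / 1000) {b : ℍ} (h1 : |cu s X0 b| ≤ 3.2 * n)
    (h2 : |cv s b| ≤ 3.2 * n) : ∃ q ∈ A, dist b q < 0.58 * s := by
  have hnR : (5 : ℝ) ≤ n := by exact_mod_cast hn
  set u := cu s X0 b with hu
  set v := cv s b with hv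
  have hb := (im_bounds hs hns (z := b) (by rw [← hv]; linarith)).1
  obtain ⟨i', hi', hui, huc⟩ := near_int n u
  obtain ⟨j', hj', hvj, hvc⟩ := near_int n v
  have fl : ∀ w : ℝ, |w| ≤ 3.2 * n → |⌊w⌋| ≤ 4 * (n : ℤ) - 1 ∧ |⌊w⌋ + 1| ≤ 4 * (n : ℤ) - 1 := by
    intro w hw
    rw [abs_le] at hw
    have e1 := Int.floor_le w
    have e2 := Int.lt_floor_add_one w
    have e3 : (-(4 * (n : ℤ) - 1) : ℤ) ≤ ⌊w⌋ := by
      have : (-(4 * (n : ℝ) - 1)) ≤ (⌊w⌋ : ℝ) := by linarith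
      exact_mod_cast this
    have e4 : ⌊w⌋ + 1 ≤ 4 * (n : ℤ) - 1 := by
      have : (⌊w⌋ : ℝ) + 1 ≤ 4 * (n : ℝ) - 1 := by linarith
      exact_mod_cast this
    constructor <;> rw [abs_le] <;> constructor <;> omega
  have fu := fl u h1
  have fv := fl v h2
  have key : ∀ (σ : Bool) (i j : ℤ), |i| ≤ 4 * (n : ℤ) - 1 → |j| ≤ 4 * (n : ℤ) - 1 → ∀ f g : ℝ,
      |u - ps n σ i| ≤ f → |v - ps n σ j| ≤ g → f ≤ 1 → g ≤ 1 →
      (f + 1 / 100) ^ 2 + (g + 1 / 100) ^ 2 ≤ 0.57 ^ 2 → ∃ q ∈ A, dist b q < 0.58 * s := by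
    intro σ i j hi hj f g hf hg hf1 hg1 hfg
    obtain ⟨q, hq, hqb⟩ := T.ex σ i j hi hj
    obtain ⟨m1, m2⟩ := mem_bx hs hqb
    have d1 : |u - cu s X0 q| ≤ f + 1 / 100 := by
      rw [abs_le] at *
      constructor <;> linarith [m1.1, m1.2, hf.1, hf.2]
    have d2 : |v - cv s q| ≤ g + 1 / 100 := by
      rw [abs_le] at *
      constructor <;> linarith [m2.1, m2.2, hg.1, hg.2]
    have hqim := (im_bounds hs hns (z := q) (by
      rw [abs_le] at *
      constructor <;> linarith [m2.1, m2.2, hg.1, hg.2])).1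
    refine ⟨q, hq, ?_⟩
    have h3 := dist_le_uv (X0 := X0) hs (z := b) (w := q) (r := 0.57) (by norm_num) hb hqim (by
      rw [← hu, ← hv, ← sq_abs (u - cu s X0 q), ← sq_abs (v - cv s q)]
      have b1 := abs_nonneg (u - cu s X0 q)
      have b2 := abs_nonneg (v - cv s q)
      nlinarith)
    refine lt_of_le_of_lt h3 ?_
    rw [div_lt_iff₀ (by norm_num)]
    nlinarith
  set f := |u - i'| with hf
  set g := |v - j'| with hg
  have f0 : 0 ≤ f := abs_nonneg _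
  have g0 : 0 ≤ g := abs_nonneg _
  by_cases hc : f ^ 2 + g ^ 2 ≤ 0.3025
  · refine key false i' j' ?_ ?_ f g (by rw [ps_false]) (by rw [ps_false]) (by linarith)
      (by linarith) (by nlinarith)
    · rcases hi' with h | h <;> rw [h]
      exacts [fu.1, fu.2]
    · rcases hj' with h | h <;> rw [h]
      exacts [fv.1, fv.2]
  · push Not at hc
    have f1 : 0.229 < f := by nlinarith
    have g1 : 0.229 < g := by nlinarith
    exact key true ⌊u⌋ ⌊v⌋ fu.1 fv.1 (3 / 5 - f) (3 / 5 - g) huc hvc (by linarith) (by linarith)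
      (by nlinarith)

/-- points of `A` near a point of the inner region -/
theorem Tmpl.near_index {n : ℕ} {A : Set ℍ} (T : Tmpl n s X0 A) (hs : 0 < s) (hn : 5 ≤ n)
    (hns : (n : ℝ) * s = 1 / 1000) {z y : ℍ} (hy : y ∈ A) (h1 : |cu s X0 z| ≤ 2 * n)
    (h2 : |cv s z| ≤ 2 * n) (h : dist z y ≤ 0.5427 * s) :
    ∃ (σ : Bool) (i j : ℤ), |i| ≤ 4 * n - 1 ∧ |j| ≤ 4 * n - 1 ∧
      y ∈ bx s X0 (ps n σ i) (ps n σ j) ∧ |ps n σ i - cu s X0 z| ≤ 0.561 ∧
      |ps n σ j - cv s z| ≤ 0.561 := by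
  have hnR : (5 : ℝ) ≤ n := by exact_mod_cast hn
  have hz := (im_bounds hs hns (z := z) (by linarith)).2
  rw [dist_comm] at h
  have hs1 : 0.5427 * s ≤ 1 / 100 := by nlinarith
  obtain ⟨d1, d2⟩ := coord_le_uv (X0 := X0) hs hs1 hz h
  have hbig : y ∈ big s X0 n := by
    apply mem_big hs
    · rw [abs_lt]; rw [abs_le] at d1 h1
      constructor <;> linarith [d1.1, d1.2, h1.1, h1.2]
    · rw [abs_lt]; rw [abs_le] at d2 h2
      constructor <;> linarith [d2.1, d2.2, h2.1, h2.2]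
  obtain ⟨σ, i, j, hi, hj, hb⟩ := T.cov y hy hbig
  obtain ⟨m1, m2⟩ := mem_bx hs hb
  refine ⟨σ, i, j, hi, hj, hb, ?_, ?_⟩
  · rw [abs_le] at *
    constructor <;> linarith [d1.1, d1.2, m1.1, m1.2]
  · rw [abs_le] at *
    constructor <;> linarith [d2.1, d2.2, m2.1, m2.2]

end Pool.Agent.X143.VT
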